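import Pool.Agent.Helper98.GY.Stmts

/-!
Row GDY of the sheet GY (MP_7a8f48_an): the theorem for the models.
-/

open MeasureTheory Filter Topology Finset

namespace Pool.Agent.Helper13.GY

open Pool.Agent.Helper98.TW (Sys)
open Pool.Agent.Helper16.AZ (T E Op mm)
open Pool.Agent.Helper16.BZ (EQ)
open Pool.Agent.Helper98.GY (Mdl StrP Good JY ST_MLA ST_MSP ST_THB ST_UEQ ST_MST ST_GDY)

/-- a homeomorphism which preserves the measure is a system -/
theorem sys_homeo {Y : Type} [TopologicalSpace Y] [MeasurableSpace Y] [BorelSpace Y]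
    {ν : Measure Y} (S : Y ≃ₜ Y) (hS : MeasurePreserving S ν ν) :
    Sys ν (S : Y → Y) (S.symm : Y → Y) :=
  ⟨hS, MeasurePreserving.symm S.toMeasurableEquiv hS,
    Eventually.of_forall fun x => S.symm_apply_apply x,
    Eventually.of_forall fun x => S.apply_symm_apply x⟩

theorem st_GDY (mla : ST_MLA) (msp : ST_MSP) (thb : ST_THB) (ueq : ST_UEQ) (mst : ST_MST) :
    ST_GDY := by
  intro Y _ _ _ _ ν _ S hmp hmdl hue
  have hst := mst Y ν (S : Y → Y) (S.symm : Y → Y) (sys_homeo S hmp) hmdl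
  have heq : EQ (S : Y → Y) ν := ueq Y ν (S : Y → Y) S.continuous hue hst.erg
  have hstr : StrP (S : Y → Y) ν := msp Y ν (S : Y → Y) S.continuous hmp heq
    fun d φ c hφ hc ε hε => mla Y ν S hmp hmdl d φ c hφ hc ε hε
  exact ⟨thb Y ν S hstr hmp heq, heq⟩

end Pool.Agent.Helper13.GY
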