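import Pool.Agent.Helper92.TWR.BI

/-!
Relative van der Corput inequality (MP_7a8f48_an, sheet TA, rows W1, W2, W3).
-/

set_option linter.unusedSectionVars false

open MeasureTheory Filter Topology Finset
open scoped ComplexConjugate

namespace Pool.Agent.Helper13.GY

open Pool.Agent.Helper98.TW Pool.Agent.Helper73.TWR Pool.Agent.Helper92.TWR

variable {Ω : Type} [m0 : MeasurableSpace Ω] {μ : Measure Ω} [IsProbabilityMeasure μ]
variable {R R' : Ω → Ω} {C : SA Ω} {F G : Ω → ℂ}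

/-- the square norms of the relative correlations of two functions -/
noncomputable def bg (μ : Measure Ω) (C : SA Ω) (R : Ω → Ω) (F G : Ω → ℂ) (h : ℕ) : ℝ :=
  ∫ x, ‖(μ[fun x => F (R^[h] x) * conj (G x)|C]) x‖ ^ 2 ∂μ

theorem bg_nonneg (h : ℕ) : 0 ≤ bg μ C R F G h := integral_nonneg fun x => by positivity

/-- averages which tend to zero -/
theorem avg_bound {b : ℕ → ℝ} (h0 : ∀ h, 0 ≤ b h)
    (hlim : Tendsto (fun H : ℕ => (∑ h ∈ range H, b h) / (H : ℝ)) atTop (𝓝 0))
    {ε : ℝ} (hε : 0 < ε) : ∃ K : ℝ, 0 ≤ K ∧ ∀ H : ℕ, ∑ h ∈ range H, b h ≤ ε * H + K := by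
  obtain ⟨H₀, h1⟩ := eventually_atTop.1 (hlim.eventually (gt_mem_nhds hε))
  refine ⟨∑ h ∈ range H₀, b h, Finset.sum_nonneg fun h _ => h0 h, fun H => ?_⟩
  rcases le_total H H₀ with h2 | h2
  · have h3 : ∑ h ∈ range H, b h ≤ ∑ h ∈ range H₀, b h :=
      Finset.sum_le_sum_of_subset_of_nonneg (Finset.range_mono h2) fun h _ _ => h0 h
    have : 0 ≤ ε * H := by positivity
    linarith
  · have hK : 0 ≤ ∑ h ∈ range H₀, b h := Finset.sum_nonneg fun h _ => h0 h
    rcases Nat.eq_zero_or_pos H with h4 | h4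
    · subst h4
      simp only [Finset.range_zero, Finset.sum_empty, Nat.cast_zero, mul_zero, zero_add]
      exact hK
    · have h5 : (0 : ℝ) < H := by exact_mod_cast h4
      have h6 := h1 H h2
      rw [div_lt_iff₀ h5] at h6
      linarith

/-- averages of square roots -/
theorem avg_sqrt {b : ℕ → ℝ} (h0 : ∀ h, 0 ≤ b h)
    (hlim : Tendsto (fun H : ℕ => (∑ h ∈ range H, b h) / (H : ℝ)) atTop (𝓝 0)) :
    Tendsto (fun H : ℕ => (∑ h ∈ range H, √(b h)) / (H : ℝ)) atTop (𝓝 0) := by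
  have h1 := (Real.continuous_sqrt.tendsto _).comp hlim
  rw [Real.sqrt_zero] at h1
  refine squeeze_zero (fun H => ?_) (fun H => ?_) h1
  · exact div_nonneg (Finset.sum_nonneg fun h _ => Real.sqrt_nonneg _) (Nat.cast_nonneg _)
  · show (∑ h ∈ range H, √(b h)) / (H : ℝ) ≤ √((∑ h ∈ range H, b h) / (H : ℝ))
    rcases Nat.eq_zero_or_pos H with h4 | h4
    · subst h4; simp
    · have h5 : (0 : ℝ) < H := by exact_mod_cast h4
      refine Real.le_sqrt_of_sq_le ?_
      rw [div_pow, div_le_div_iff₀ (by positivity) h5]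
      have h6 := Real.sum_sqrt_mul_sqrt_le (range H) (f := b) (g := fun _ => 1) h0
        (fun _ => zero_le_one)
      simp only [Real.sqrt_one, mul_one, Finset.sum_const, Finset.card_range, nsmul_eq_mul] at h6
      have hs0 : 0 ≤ ∑ h ∈ range H, √(b h) := Finset.sum_nonneg fun h _ => Real.sqrt_nonneg _
      have h7 := pow_le_pow_left₀ hs0 h6 2
      rw [mul_pow, Real.sq_sqrt (Finset.sum_nonneg fun h _ => h0 h), Real.sq_sqrt h5.le] at h7
      calc (∑ h ∈ range H, √(b h)) ^ 2 * (H : ℝ) ≤ ((∑ h ∈ range H, b h) * H) * H :=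
            mul_le_mul_of_nonneg_right h7 h5.le
        _ = (∑ h ∈ range H, b h) * (H : ℝ) ^ 2 := by ring

/-- one correlation -/
theorem pair_le (hS : Sys μ R R') (hC : IA μ C R R') (hF : BF F) {K : ℕ → Ω → ℂ}
    {L : ℝ} (hK : ∀ n, BF (K n)) (hKC : ∀ n, AM μ C (K n)) (hL : ∀ n x, ‖K n x‖ ≤ L)
    (hL0 : 0 ≤ L) (h m : ℕ) :
    ‖∫ x, (F (R^[h + m] x) * conj (K (h + m) x)) * conj (F (R^[m] x) * conj (K m x)) ∂μ‖ ≤
      L ^ 2 * √(be μ C R F h) := by
  have hRn : ∀ n : ℕ, Measurable R^[n] := fun n => hS.mp.measurable.iterate n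
  set P0 : Ω → ℂ := fun x => F (R^[h] x) * conj (F x) with hP0
  have hP0b : BF P0 := bf_mul (bf_comp hF (hRn _)) (bf_conj hF)
  set P : Ω → ℂ := fun x => P0 (R^[m] x) with hP
  have hPb : BF P := bf_comp hP0b (hRn _)
  set u : Ω → ℂ := fun x => conj (K (h + m) x) * K m x with hu
  have hub : BF u := bf_mul (bf_conj (hK _)) (hK _)
  have huC : AM μ C u := am_mul (am_conj (hKC _)) (hKC _)
  have h1 := cec (hS.iterate m) (hC.iterate m) (bf_int (μ := μ) hP0b)
  have e1 : ∫ x, (F (R^[h + m] x) * conj (K (h + m) x)) * conj (F (R^[m] x) * conj (K m x)) ∂μ =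
      ∫ x, u x * (μ[P|C]) x ∂μ := by
    rw [int_ce hC.1 huC hub.ab (bf_int hPb)]
    refine integral_congr_ae (Eventually.of_forall fun x => ?_)
    simp only [hP, hP0, hu, map_mul, Complex.conj_conj, Function.iterate_add_apply]
    ring
  rw [e1]
  have c1 := cs (μ := μ) (bf_memLp hub) (ce_memLp (𝒜 := C) (bf_memLp hPb))
  refine c1.trans (mul_le_mul ?_ ?_ (Real.sqrt_nonneg _) (by positivity))
  · refine Real.sqrt_le_iff.2 ⟨by positivity, ?_⟩
    have h2 : ∫ x, ‖u x‖ ^ 2 ∂μ ≤ ∫ _x, (L ^ 2) ^ 2 ∂μ := by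
      refine integral_mono_of_nonneg (Eventually.of_forall fun x => by positivity)
        (integrable_const _) (Eventually.of_forall fun x => ?_)
      have h3 : ‖u x‖ ≤ L ^ 2 := by
        simp only [hu, norm_mul, RCLike.norm_conj]
        rw [sq]
        exact mul_le_mul (hL _ _) (hL _ _) (norm_nonneg _) hL0
      exact pow_le_pow_left₀ (norm_nonneg _) h3 2
    simpa using h2
  · refine Real.sqrt_le_sqrt (le_of_eq ?_)
    have h2 : ∫ x, ‖(μ[P|C]) x‖ ^ 2 ∂μ = ∫ x, ‖(μ[P0|C]) (R^[m] x)‖ ^ 2 ∂μ := by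
      refine integral_congr_ae ?_
      filter_upwards [h1] with x e1
      rw [hP, e1]
    rw [h2]
    exact int_comp (hS.mp.iterate m) (g := fun x => ‖(μ[P0|C]) x‖ ^ 2)
      ((ce_meas hC.1).norm.pow_const 2).aestronglyMeasurable

/-- W1 (van der Corput): correlations with other functions. -/
theorem w1 (hS : Sys μ R R') (hC : IA μ C R R') (hF : BF F) (hG : BF G)
    (hlim : Tendsto (fun H : ℕ => (∑ h ∈ range H, be μ C R F h) / (H : ℝ)) atTop (𝓝 0)) :
    Tendsto (fun H : ℕ => (∑ h ∈ range H, bg μ C R F G h) / (H : ℝ)) atTop (𝓝 0) := by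
  have hRn : ∀ n : ℕ, Measurable R^[n] := fun n => hS.mp.measurable.iterate n
  -- bounds
  obtain ⟨B, hB0, hBF, hBG⟩ : ∃ B : ℝ, 0 ≤ B ∧ (∀ x, ‖F x‖ ≤ B) ∧ ∀ x, ‖G x‖ ≤ B := by
    obtain ⟨_, B1, h1⟩ := hF
    obtain ⟨_, B2, h2⟩ := hG
    refine ⟨max 0 (max B1 B2), le_max_left _ _, fun x => (h1 x).trans ?_, fun x => (h2 x).trans ?_⟩
    · exact (le_max_left _ _).trans (le_max_right _ _)
    · exact (le_max_right _ _).trans (le_max_right _ _)
  -- the conditional expectations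
  have hP : ∀ n : ℕ, BF (fun x => F (R^[n] x) * conj (G x)) := fun n =>
    bf_mul (bf_comp hF (hRn _)) (bf_conj hG)
  have hPB : ∀ (n : ℕ) (x : Ω), ‖F (R^[n] x) * conj (G x)‖ ≤ B ^ 2 := by
    intro n x
    rw [norm_mul, RCLike.norm_conj, sq]
    exact mul_le_mul (hBF _) (hBG _) (norm_nonneg _) hB0
  have hex : ∀ n : ℕ, ∃ K : Ω → ℂ, BF K ∧ AM μ C K ∧ (∀ x, ‖K x‖ ≤ B ^ 2) ∧
      K =ᵐ[μ] μ[fun x => F (R^[n] x) * conj (G x)|C] := by
    intro n
    set E := μ[fun x => F (R^[n] x) * conj (G x)|C] with hE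
    have hb := ce_bdd (μ := μ) (𝒜 := C) hC.1 (bf_int (hP n)) (Eventually.of_forall (hPB n))
    set s : Set Ω := {x | ‖E x‖ ≤ B ^ 2} with hs
    have hEC : StronglyMeasurable[C] E := stronglyMeasurable_condExp
    have hsC : MeasurableSet[C] s := by
      have h1 : @Measurable Ω ℝ C _ fun x => ‖E x‖ := hEC.norm.measurable
      exact h1 measurableSet_Iic
    refine ⟨s.indicator E, ⟨(ce_meas hC.1).indicator (hC.1 s hsC), B ^ 2, fun x => ?_⟩, ?_,
      fun x => ?_, ?_⟩
    · by_cases hx : x ∈ s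
      · rw [Set.indicator_of_mem hx]; exact hx
      · rw [Set.indicator_of_notMem hx, norm_zero]; positivity
    · exact (hEC.indicator hsC).aestronglyMeasurable
    · by_cases hx : x ∈ s
      · rw [Set.indicator_of_mem hx]; exact hx
      · rw [Set.indicator_of_notMem hx, norm_zero]; positivity
    · filter_upwards [hb] with x hx
      exact Set.indicator_of_mem (show x ∈ s from hx) _
  choose K hK hKC hKB hKe using hex
  set T : ℕ → ℕ → ℂ := fun n m =>
    ∫ x, (F (R^[n] x) * conj (K n x)) * conj (F (R^[m] x) * conj (K m x)) ∂μ with hT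
  have hTc : ∀ n m, ‖T n m‖ = ‖T m n‖ := by
    intro n m
    have : T n m = conj (T m n) := by
      simp only [hT]
      rw [← integral_conj]
      refine integral_congr_ae (Eventually.of_forall fun x => ?_)
      simp only [map_mul, Complex.conj_conj]
      ring
    rw [this, RCLike.norm_conj]
  have hTle : ∀ n m : ℕ, ‖T n m‖ ≤ (B ^ 2) ^ 2 * √(be μ C R F ((n - m) + (m - n))) := by
    intro n m
    rcases le_total m n with hmn | hmn
    · have := pair_le hS hC hF hK hKC hKB (by positivity) (n - m) m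
      rw [Nat.sub_add_cancel hmn] at this
      rw [Nat.sub_eq_zero_of_le hmn, add_zero]
      exact this
    · have := pair_le hS hC hF hK hKC hKB (by positivity) (m - n) n
      rw [Nat.sub_add_cancel hmn] at this
      rw [Nat.sub_eq_zero_of_le hmn, zero_add, hTc]
      exact this
  -- the main inequality
  have hmain : ∀ N : ℕ, (∑ h ∈ range N, bg μ C R F G h) ^ 2 ≤
      B ^ 2 * ((B ^ 2) ^ 2 *
        ∑ p ∈ range N ×ˢ range N, √(be μ C R F ((p.1 - p.2) + (p.2 - p.1)))) := by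
    intro N
    set A : Ω → ℂ := fun x => ∑ n ∈ range N, F (R^[n] x) * conj (K n x) with hA
    have hAb : ∀ n : ℕ, BF (fun x => F (R^[n] x) * conj (K n x)) := fun n =>
      bf_mul (bf_comp hF (hRn _)) (bf_conj (hK n))
    have hAL : MemLp A 2 μ := memLp_finsetSum _ fun n _ => bf_memLp (hAb n)
    have e1 : ((∑ h ∈ range N, bg μ C R F G h : ℝ) : ℂ) = ∫ x, conj (G x) * A x ∂μ := by
      have e2 : ∀ n : ℕ, ((bg μ C R F G n : ℝ) : ℂ) =
          ∫ x, conj (G x) * (F (R^[n] x) * conj (K n x)) ∂μ := by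
        intro n
        have e3 : ∫ x, conj (K n x) * (μ[fun x => F (R^[n] x) * conj (G x)|C]) x ∂μ =
            ∫ x, conj (K n x) * (F (R^[n] x) * conj (G x)) ∂μ :=
          int_ce hC.1 (am_conj (hKC n)) (bf_conj (hK n)).ab (bf_int (hP n))
        have e4 : ((bg μ C R F G n : ℝ) : ℂ) =
            ∫ x, conj (K n x) * (μ[fun x => F (R^[n] x) * conj (G x)|C]) x ∂μ := by
          unfold bg
          rw [← integral_complex_ofReal]
          refine integral_congr_ae ?_
          filter_upwards [hKe n] with x hx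
          rw [hx, mul_comm, Complex.mul_conj, Complex.normSq_eq_norm_sq]
        rw [e4, e3]
        refine integral_congr_ae (Eventually.of_forall fun x => ?_)
        show _ = _
        ring
      rw [Complex.ofReal_sum, Finset.sum_congr rfl fun n _ => e2 n, ← integral_finsetSum]
      · refine integral_congr_ae (Eventually.of_forall fun x => ?_)
        simp only [hA]
        rw [Finset.mul_sum]
      · intro n _
        exact bf_int (bf_mul (bf_conj hG) (hAb n))
    have c1 := cs (μ := μ) (bf_memLp (bf_conj hG)) hAL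
    rw [← e1, Complex.norm_real, Real.norm_of_nonneg
      (Finset.sum_nonneg fun h _ => bg_nonneg h)] at c1
    have hG2 : ∫ x, ‖conj (G x)‖ ^ 2 ∂μ ≤ B ^ 2 := by
      have h2 : ∫ x, ‖conj (G x)‖ ^ 2 ∂μ ≤ ∫ _x, B ^ 2 ∂μ := by
        refine integral_mono_of_nonneg (Eventually.of_forall fun x => by positivity)
          (integrable_const _) (Eventually.of_forall fun x => ?_)
        show ‖conj (G x)‖ ^ 2 ≤ B ^ 2
        rw [RCLike.norm_conj]
        exact pow_le_pow_left₀ (norm_nonneg _) (hBG x) 2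
      simpa using h2
    have h3 := pow_le_pow_left₀ (Finset.sum_nonneg fun h _ => bg_nonneg h) c1 2
    rw [mul_pow, Real.sq_sqrt (integral_nonneg fun x => by positivity),
      Real.sq_sqrt (integral_nonneg fun x => by positivity)] at h3
    refine h3.trans ?_
    refine mul_le_mul hG2 ?_ (integral_nonneg fun x => by positivity) (by positivity)
    have h5 : ((∫ x, ‖A x‖ ^ 2 ∂μ : ℝ) : ℂ) = ∑ p ∈ range N ×ˢ range N, T p.1 p.2 := by
      simp only [hT]
      rw [← integral_complex_ofReal, ← integral_finsetSum]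
      · refine integral_congr_ae (Eventually.of_forall fun x => ?_)
        show ((‖A x‖ ^ 2 : ℝ) : ℂ) = ∑ p ∈ range N ×ˢ range N, _
        have e1 : ((‖A x‖ ^ 2 : ℝ) : ℂ) = A x * conj (A x) := by
          rw [Complex.mul_conj, Complex.normSq_eq_norm_sq]
        rw [e1]
        simp only [hA]
        rw [map_sum, Finset.sum_mul_sum, Finset.sum_product]
      · intro p _
        exact bf_int (bf_mul (hAb _) (bf_conj (hAb _)))
    have h6 : ∫ x, ‖A x‖ ^ 2 ∂μ = ‖((∫ x, ‖A x‖ ^ 2 ∂μ : ℝ) : ℂ)‖ := by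
      rw [Complex.norm_real, Real.norm_of_nonneg (integral_nonneg fun x => by positivity)]
    rw [h6, h5, Finset.mul_sum]
    exact (norm_sum_le _ _).trans (Finset.sum_le_sum fun p _ => hTle p.1 p.2)
  -- the limit
  have hsq := avg_sqrt (fun h => be_nonneg C R F h) hlim
  set c : ℝ := B ^ 2 * (B ^ 2) ^ 2 with hc
  have hc0 : 0 ≤ c := by positivity
  have hlim2 : Tendsto (fun N : ℕ => ((∑ h ∈ range N, bg μ C R F G h) / (N : ℝ)) ^ 2) atTop
      (𝓝 0) := by
    rw [tendsto_order]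
    refine ⟨fun a ha => Eventually.of_forall fun N => ha.trans_le (by positivity), fun a ha => ?_⟩
    obtain ⟨ε, hε, hεa⟩ : ∃ ε : ℝ, 0 < ε ∧ 3 * c * ε < a := by
      refine ⟨a / (3 * c + 1) / 2, by positivity, ?_⟩
      rw [div_div, mul_div_assoc', div_lt_iff₀ (by positivity)]
      nlinarith
    obtain ⟨K, hK0, hKs⟩ := avg_bound (fun h => Real.sqrt_nonneg (be μ C R F h)) hsq hε
    obtain ⟨N₀, hN₀⟩ := exists_nat_ge (2 * K / ε)
    filter_upwards [eventually_ge_atTop (max 1 N₀)] with N hN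
    have hN1 : (1 : ℝ) ≤ N := by exact_mod_cast (le_max_left 1 N₀).trans hN
    have hN2 : 2 * K / ε ≤ N := hN₀.trans (by exact_mod_cast (le_max_right 1 N₀).trans hN)
    rw [div_le_iff₀ hε] at hN2
    have hN0 : (0 : ℝ) < N := by linarith
    have s3 := be_sum (fun h => √(be μ C R F h)) (fun h => Real.sqrt_nonneg _) ε K hKs N
    have s4 := hmain N
    rw [div_pow, div_lt_iff₀ (by positivity)]
    refine s4.trans_lt ?_
    have s5 : ε * (N * (N + 1)) + 2 * K * N ≤ 3 * ε * (N : ℝ) ^ 2 := by nlinarith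
    calc B ^ 2 * ((B ^ 2) ^ 2 *
          ∑ p ∈ range N ×ˢ range N, √(be μ C R F ((p.1 - p.2) + (p.2 - p.1))))
        = c * ∑ p ∈ range N ×ˢ range N, √(be μ C R F ((p.1 - p.2) + (p.2 - p.1))) := by
          rw [hc]; ring
      _ ≤ c * (3 * ε * (N : ℝ) ^ 2) := mul_le_mul_of_nonneg_left (s3.trans s5) hc0
      _ = (3 * c * ε) * (N : ℝ) ^ 2 := by ring
      _ < a * (N : ℝ) ^ 2 := mul_lt_mul_of_pos_right hεa (by positivity)
  have h8 := (Real.continuous_sqrt.tendsto _).comp hlim2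
  rw [Real.sqrt_zero] at h8
  refine h8.congr fun N => ?_
  show √(((∑ h ∈ range N, bg μ C R F G h) / (N : ℝ)) ^ 2) = _
  exact Real.sqrt_sq (div_nonneg (Finset.sum_nonneg fun h _ => bg_nonneg h) (Nat.cast_nonneg _))

end Pool.Agent.Helper13.GY
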