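import Pool.Agent.Helper13.GY.VdC
import Pool.Agent.Helper13.TWR.POW
import Pool.Agent.Helper96.TWR.DNS

/-!
Relative van der Corput inequality (MP_7a8f48_an, sheet TA, rows W2, W3).
-/

set_option linter.unusedSectionVars false

open MeasureTheory Filter Topology Finset
open scoped ComplexConjugate

namespace Pool.Agent.Helper13.GY

open Pool.Agent.Helper98.TW Pool.Agent.Helper73.TWR Pool.Agent.Helper92.TWR
open Pool.Agent.Helper13.TWR (inc_iterate)

variable {Ω : Type} [m0 : MeasurableSpace Ω] {μ : Measure Ω} [IsProbabilityMeasure μ]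
variable {R R' : Ω → Ω} {C D : SA Ω} {F G τ φ : Ω → ℂ}

/-- the correlations tend to zero relative to `C` -/
def Van (μ : Measure Ω) (C : SA Ω) (R : Ω → Ω) (F : Ω → ℂ) : Prop :=
  Tendsto (fun H : ℕ => (∑ h ∈ range H, be μ C R F h) / (H : ℝ)) atTop (𝓝 0)

theorem bg_congr {G' : Ω → ℂ} (h : G =ᵐ[μ] G') (n : ℕ) : bg μ C R F G n = bg μ C R F G' n := by
  unfold bg
  refine integral_congr_ae ?_
  have h1 : μ[fun x => F (R^[n] x) * conj (G x)|C] =ᵐ[μ]
      μ[fun x => F (R^[n] x) * conj (G' x)|C] := by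
    refine condExp_congr_ae ?_
    filter_upwards [h] with x hx
    rw [hx]
  filter_upwards [h1] with x hx
  rw [hx]

/-- W1 for functions which are bounded almost everywhere -/
theorem w1_ab (hS : Sys μ R R') (hC : IA μ C R R') (hF : BF F) (hG : AB μ G)
    (hlim : Van μ C R F) :
    Tendsto (fun H : ℕ => (∑ h ∈ range H, bg μ C R F G h) / (H : ℝ)) atTop (𝓝 0) := by
  obtain ⟨G', hG', hGG⟩ := hG.bf
  refine (w1 hS hC hF hG' hlim).congr fun H => ?_
  rw [Finset.sum_congr rfl fun h _ => bg_congr hGG h]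

/-- a constant sequence whose averages tend to zero -/
theorem const_avg {c : ℝ} (h : Tendsto (fun H : ℕ => (∑ _h ∈ range H, c) / (H : ℝ)) atTop (𝓝 0)) :
    c = 0 := by
  have h1 : Tendsto (fun _ : ℕ => c) atTop (𝓝 0) := by
    refine h.congr' ?_
    filter_upwards [eventually_ge_atTop 1] with H hH
    have : (0 : ℝ) < H := by exact_mod_cast hH
    rw [Finset.sum_const, Finset.card_range, nsmul_eq_mul]
    field_simp
  exact tendsto_nhds_unique tendsto_const_nhds h1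

/-- W3: no correlation with functions with increments in `C`. -/
theorem w3 (hS : Sys μ R R') (hC : IA μ C R R') (hF : BF F) (hφ : UF μ φ) (hi : Inc μ C R φ)
    (hlim : Van μ C R F) : μ[fun x => F x * conj (φ x)|C] =ᵐ[μ] 0 := by
  have hRn : ∀ n : ℕ, Measurable R^[n] := fun n => hS.mp.measurable.iterate n
  set P : Ω → ℂ := fun x => F x * conj (φ x) with hP
  have hPab : AB μ P := hF.ab.mul hφ.conj.ab
  have key : ∀ n : ℕ, bg μ C R F φ n = ∫ x, ‖(μ[P|C]) x‖ ^ 2 ∂μ := by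
    intro n
    have hin := inc_iterate hC hS hφ hi n
    have h1 := cec (hS.iterate n) (hC.iterate n) hPab.int
    have hQab : AB μ (fun x => F (R^[n] x) * conj (φ x)) := (bf_comp hF (hRn n)).ab.mul hφ.conj.ab
    have hbab : AB μ (fun x => φ (R^[n] x) * conj (φ x)) :=
      (hφ.comp (hS.mp.iterate n)).ab.mul hφ.conj.ab
    -- `P (R^n x) = conj (b x) * (F (R^n x) * conj (φ x))`
    have h2 : (fun x => P (R^[n] x)) =ᵐ[μ] fun x =>
        conj (φ (R^[n] x) * conj (φ x)) * (F (R^[n] x) * conj (φ x)) := by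
      filter_upwards [hφ.mul_conj] with x hx
      simp only [hP, map_mul, Complex.conj_conj]
      linear_combination (-(F (R^[n] x) * conj (φ (R^[n] x)))) * hx
    have h3 : μ[fun x => P (R^[n] x)|C] =ᵐ[μ] fun x =>
        conj (φ (R^[n] x) * conj (φ x)) * (μ[fun x => F (R^[n] x) * conj (φ x)|C]) x :=
      (condExp_congr_ae h2).trans (pullb (am_conj hin) hbab.conj hQab.int)
    have h4 : ∫ x, ‖(μ[P|C]) x‖ ^ 2 ∂μ = ∫ x, ‖(μ[P|C]) (R^[n] x)‖ ^ 2 ∂μ :=
      (int_comp (hS.mp.iterate n) (g := fun x => ‖(μ[P|C]) x‖ ^ 2)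
        ((ce_meas hC.1).norm.pow_const 2).aestronglyMeasurable).symm
    rw [h4]
    unfold bg
    refine integral_congr_ae ?_
    filter_upwards [h1, h3, hφ.2, (hφ.comp (hS.mp.iterate n)).2] with x e1 e3 e4 e5
    rw [← e1, e3, norm_mul, RCLike.norm_conj, norm_mul, RCLike.norm_conj, e4, e5]
    simp
  have h5 := w1_ab (G := φ) hS hC hF hφ.ab hlim
  have h6 : ∫ x, ‖(μ[P|C]) x‖ ^ 2 ∂μ = 0 := by
    refine const_avg (h5.congr fun H => ?_)
    rw [Finset.sum_congr rfl fun h _ => key h]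
  have h7 : Integrable (fun x => ‖(μ[P|C]) x‖ ^ 2) μ :=
    (ce_memLp (𝒜 := C) hPab.memLp).integrable_norm_pow (by norm_num)
  have h8 := (integral_eq_zero_iff_of_nonneg_ae (Eventually.of_forall fun x => by positivity)
    h7).1 h6
  filter_upwards [h8] with x hx
  have : ‖(μ[P|C]) x‖ ^ 2 = 0 := hx
  simpa using this

/-- W3 for groups -/
theorem w3g (hS : Sys μ R R') (hC : IA μ C R R') (hF : BF F) {Φ : Set (Ω → ℂ)} (hΦ : Grp μ Φ)
    (hi : ∀ φ ∈ Φ, Inc μ C R φ) (hlim : Van μ C R F) : μ[F|jo C (sg Φ)] =ᵐ[μ] 0 := by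
  have hL : Lm (jo C (sg Φ)) := lm_jo hC.1 (lm_sg fun φ hφ => (hΦ.uf φ hφ).1)
  refine Pool.Agent.Helper96.TWR.st_DNS Ω μ C Φ _ hC.1 hΦ ce_int ce_am fun φ hφ => ?_
  have hφu := hΦ.uf φ hφ
  have hφM : AM μ (jo C (sg Φ)) (fun x => conj (φ x)) := am_conj (am_jo_right (am_sg hφ))
  have hab : AB μ (fun x => conj (φ x)) := hφu.conj.ab
  have h1 : μ[fun x => conj (φ x) * F x|jo C (sg Φ)] =ᵐ[μ]
      fun x => conj (φ x) * (μ[F|jo C (sg Φ)]) x := pullb hφM hab (bf_int hF)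
  have h2 : μ[fun x => (μ[F|jo C (sg Φ)]) x * conj (φ x)|C] =ᵐ[μ]
      μ[μ[fun x => conj (φ x) * F x|jo C (sg Φ)]|C] := by
    refine condExp_congr_ae ?_
    filter_upwards [h1] with x hx
    rw [hx, mul_comm]
  have h3 : μ[μ[fun x => conj (φ x) * F x|jo C (sg Φ)]|C] =ᵐ[μ]
      μ[fun x => conj (φ x) * F x|C] :=
    ce_tower hC.1 hL lq_jo_left (hab.int_mul (bf_int hF))
  have h4 := w3 hS hC hF hφu (hi φ hφ) hlim
  have h5 : μ[fun x => conj (φ x) * F x|C] =ᵐ[μ] μ[fun x => F x * conj (φ x)|C] := by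
    refine condExp_congr_ae (Eventually.of_forall fun x => ?_)
    exact mul_comm _ _
  exact h2.trans (h3.trans (h5.trans h4))

/-- the powers of `τ` -/
def Pw (τ : Ω → ℂ) : Set (Ω → ℂ) :=
  {φ | ∃ i : ℕ, φ = (fun x => τ x ^ i) ∨ φ = fun x => conj (τ x) ^ i}

theorem be_mono (hC : Lm C) (hD : Lm D) (hq : LQ μ C D) (hS : MeasurePreserving R μ μ)
    (hF : BF F) (h : ℕ) : be μ C R F h ≤ be μ D R F h := by
  have hP : BF (fun x => F (R^[h] x) * conj (F x)) :=
    bf_mul (bf_comp hF (hS.measurable.iterate h)) (bf_conj hF)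
  unfold be
  have h1 := ce_tower hC hD hq (bf_int (μ := μ) hP)
  have h2 := ce_sq_le (𝒜 := C) (ce_memLp (𝒜 := D) (bf_memLp (μ := μ) hP))
  refine le_trans (le_of_eq ?_) h2
  refine integral_congr_ae ?_
  filter_upwards [h1] with x hx
  rw [hx]

theorem van_mono (hC : Lm C) (hD : Lm D) (hq : LQ μ C D) (hS : MeasurePreserving R μ μ)
    (hF : BF F) (hlim : Van μ D R F) : Van μ C R F := by
  refine squeeze_zero (fun H => ?_) (fun H => ?_) hlim
  · exact div_nonneg (Finset.sum_nonneg fun h _ => be_nonneg C R F h) (Nat.cast_nonneg _)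
  · exact div_le_div_of_nonneg_right (Finset.sum_le_sum fun h _ => be_mono hC hD hq hS hF h)
      (Nat.cast_nonneg _)

end Pool.Agent.Helper13.GY
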